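import Pool.Agent.Helper18.KSZ.NSpec

/-!
Project KSZ (MP_768c9c_nt), module N15: Theorem N from one level.
-/

set_option autoImplicit false

open Finset Filter Topology

namespace Pool.Agent.Helper71.KSZ

open Pool.Agent.Helper18.KSZ

theorem mz_nonneg (ρ : ℂ) : 0 ≤ mz ρ := Nat.cast_nonneg _

/-- the level of an ordinate -/
theorem exists_level {X T : ℝ} (hX : 1 < X) (hT : 1 < T) (hTX : T ≤ X ^ (6 / 10 : ℝ)) :
    ∃ j : ℕ, (X ^ ((1 / 2 : ℝ) ^ j)) ^ (3 / 10 : ℝ) ≤ T ∧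
      T ≤ (X ^ ((1 / 2 : ℝ) ^ j)) ^ (6 / 10 : ℝ) := by
  have hX0 : 0 < X := by linarith
  have hlim : Tendsto (fun j : ℕ => X ^ ((1 / 2 : ℝ) ^ j * (3 / 10))) atTop (𝓝 1) := by
    have h1 : Tendsto (fun j : ℕ => (1 / 2 : ℝ) ^ j * (3 / 10)) atTop (𝓝 (0 * (3 / 10))) :=
      (tendsto_pow_atTop_nhds_zero_of_lt_one (by norm_num) (by norm_num)).mul_const _
    rw [zero_mul] at h1
    have h2 := (Real.continuous_const_rpow hX0.ne').continuousAt.tendsto.comp h1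
    rw [Real.rpow_zero] at h2
    exact h2
  have hex : ∃ j : ℕ, X ^ ((1 / 2 : ℝ) ^ j * (3 / 10)) < T :=
    (hlim.eventually (gt_mem_nhds hT)).exists
  classical
  refine ⟨Nat.find hex, ?_, ?_⟩
  · rw [← Real.rpow_mul hX0.le]
    exact (Nat.find_spec hex).le
  · rw [← Real.rpow_mul hX0.le]
    rcases Nat.eq_zero_or_pos (Nat.find hex) with h0 | h0
    · rw [h0, pow_zero, one_mul]
      exact hTX
    · have h1 := Nat.find_min hex (Nat.sub_lt h0 one_pos)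
      rw [not_lt] at h1
      refine h1.trans (le_of_eq ?_)
      congr 1
      obtain ⟨k, hk⟩ : ∃ k, Nat.find hex = k + 1 := ⟨Nat.find hex - 1, by omega⟩
      rw [hk, Nat.add_sub_cancel, pow_succ]
      ring

/-- the low zeros contribute `o(1)` -/
theorem low_zeros (ε B η : ℝ) (hη : 0 < η) : ∃ X0 : ℝ, ∀ X : ℝ, X0 ≤ X → ∀ Z : Finset ℂ,
    (∀ ρ ∈ Z, riemannZeta ρ = 0 ∧ 1 - ε ≤ ρ.re ∧ |ρ.im| ≤ B) →
    ∑ ρ ∈ Z, mz ρ * X ^ (ρ.re - 1) ≤ η := by
  classical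
  have hcomp : IsCompact (Set.Icc (1 - ε) 1 ×ℂ Set.Icc (-B) B) :=
    isCompact_Icc.reProdIm isCompact_Icc
  set F : Finset ℂ := hcomp.inter_riemannZetaZeros_finite.toFinset with hF
  have hmem : ∀ ρ : ℂ, riemannZeta ρ = 0 → 1 - ε ≤ ρ.re → |ρ.im| ≤ B → ρ ∈ F := by
    intro ρ h1 h2 h3
    rw [hF, Set.Finite.mem_toFinset]
    refine ⟨?_, mem_riemannZetaZeros.2 h1⟩
    rw [Complex.mem_reProdIm]
    refine ⟨⟨h2, ?_⟩, abs_le.1 h3⟩
    by_contra h
    exact riemannZeta_ne_zero_of_one_le_re (not_le.1 h).le h1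
  have hlim : Tendsto (fun X : ℝ => ∑ ρ ∈ F, mz ρ * X ^ (ρ.re - 1)) atTop
      (𝓝 (∑ ρ ∈ F, mz ρ * 0)) := by
    refine tendsto_finsetSum _ fun ρ hρ => Tendsto.const_mul _ ?_
    have h1 : riemannZeta ρ = 0 := by
      rw [hF, Set.Finite.mem_toFinset] at hρ
      exact mem_riemannZetaZeros.1 hρ.2
    have h2 : ρ.re < 1 := by
      by_contra h
      exact riemannZeta_ne_zero_of_one_le_re (not_lt.1 h) h1
    have h3 := tendsto_rpow_neg_atTop (y := 1 - ρ.re) (by linarith)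
    refine h3.congr fun X => ?_
    congr 1
    ring
  simp only [mul_zero, Finset.sum_const_zero] at hlim
  obtain ⟨X0, hX0⟩ := eventually_atTop.1 (hlim.eventually (ge_mem_nhds hη))
  refine ⟨max X0 0, fun X hX Z hZ => ?_⟩
  refine le_trans ?_ (hX0 X ((le_max_left _ _).trans hX))
  refine Finset.sum_le_sum_of_subset_of_nonneg ?_ ?_
  · intro ρ hρ
    obtain ⟨h1, h2, h3⟩ := hZ ρ hρ
    exact hmem ρ h1 h2 h3
  · intro ρ _ _
    exact mul_nonneg (mz_nonneg ρ) (Real.rpow_nonneg ((le_max_right _ _).trans hX) _)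

theorem theoremN (h10 : InA10) (h : OneLevel) : TheoremN := by
  classical
  obtain ⟨ε, hε, H⟩ := h
  refine ⟨ε, hε, fun η hη => ?_⟩
  obtain ⟨X1, hX1⟩ := H (η / 4) (by linarith)
  obtain ⟨T0, hT0, hzf⟩ := h10 1
  -- the threshold between low and high zeros
  set B : ℝ := max (max (T0 ^ (10 / 3 : ℝ)) X1) 3 with hB
  have hB3 : 3 ≤ B := le_max_right _ _
  have hBX1 : X1 ≤ B := (le_max_right _ _).trans (le_max_left _ _)
  have hBT0 : T0 ^ (10 / 3 : ℝ) ≤ B := (le_max_left _ _).trans (le_max_left _ _)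
  obtain ⟨X2, hX2⟩ := low_zeros ε (B ^ (6 / 10 : ℝ)) (η / 2) (by linarith)
  refine ⟨max X2 3, fun X hX Z hZ => ?_⟩
  have hXX2 : X2 ≤ X := (le_max_left _ _).trans hX
  have hX3 : 3 ≤ X := (le_max_right _ _).trans hX
  have hX0 : 0 < X := by linarith
  have hXone : 1 < X := by linarith
  rw [← Finset.sum_filter_add_sum_filter_not Z (fun ρ => |ρ.im| ≤ B ^ (6 / 10 : ℝ))]
  have hlow : ∑ ρ ∈ Z.filter (fun ρ => |ρ.im| ≤ B ^ (6 / 10 : ℝ)), mz ρ * X ^ (ρ.re - 1) ≤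
      η / 2 := by
    refine hX2 X hXX2 _ fun ρ hρ => ?_
    rw [Finset.mem_filter] at hρ
    obtain ⟨h1, h2, -⟩ := hZ ρ hρ.1
    exact ⟨h1, h2, hρ.2⟩
  set Zh := Z.filter (fun ρ => ¬ |ρ.im| ≤ B ^ (6 / 10 : ℝ)) with hZh
  -- levels
  have hlev : ∀ ρ : ℂ, ρ ∈ Zh → ∃ j : ℕ, (X ^ ((1 / 2 : ℝ) ^ j)) ^ (3 / 10 : ℝ) ≤ |ρ.im| ∧
      |ρ.im| ≤ (X ^ ((1 / 2 : ℝ) ^ j)) ^ (6 / 10 : ℝ) := by
    intro ρ hρ
    rw [hZh, Finset.mem_filter, not_le] at hρ
    obtain ⟨h1, h2, h3⟩ := hZ ρ hρ.1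
    refine exists_level hXone ?_ h3
    exact lt_of_le_of_lt (Real.one_le_rpow (by linarith) (by norm_num)) hρ.2
  choose! lev hlev1 hlev2 using hlev
  have hhigh : ∑ ρ ∈ Zh, mz ρ * X ^ (ρ.re - 1) ≤ η / 2 := by
    rw [← Finset.sum_fiberwise_of_maps_to (g := lev) (t := Zh.image lev)
      (fun ρ hρ => Finset.mem_image_of_mem _ hρ)]
    have hfib : ∀ j ∈ Zh.image lev, ∑ ρ ∈ Zh.filter (fun ρ => lev ρ = j), mz ρ * X ^ (ρ.re - 1) ≤
        η / 4 * (1 / 2 : ℝ) ^ j := by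
      intro j hj
      set Xj : ℝ := X ^ ((1 / 2 : ℝ) ^ j) with hXj
      have hXj0 : 0 < Xj := Real.rpow_pos_of_pos hX0 _
      -- facts about zeros of the fiber
      have hfacts : ∀ ρ ∈ Zh.filter (fun ρ => lev ρ = j), riemannZeta ρ = 0 ∧ 1 - ε ≤ ρ.re ∧
          Xj ^ (3 / 10 : ℝ) ≤ |ρ.im| ∧ |ρ.im| ≤ Xj ^ (6 / 10 : ℝ) ∧ B ^ (6 / 10 : ℝ) < |ρ.im| := by
        intro ρ hρ
        rw [Finset.mem_filter] at hρ
        have hρZ := hρ.1
        rw [hZh, Finset.mem_filter, not_le] at hρZ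
        obtain ⟨h1, h2, h3⟩ := hZ ρ hρZ.1
        have h4 := hlev1 ρ hρ.1
        have h5 := hlev2 ρ hρ.1
        rw [hρ.2] at h4 h5
        exact ⟨h1, h2, h4, h5, hρZ.2⟩
      -- the fiber is nonempty
      obtain ⟨ρ0, hρ0, hρ0j⟩ := Finset.mem_image.1 hj
      have hXjB : B < Xj := by
        obtain ⟨-, -, -, h5, h6⟩ := hfacts ρ0 (Finset.mem_filter.2 ⟨hρ0, hρ0j⟩)
        have h7 : B ^ (6 / 10 : ℝ) < Xj ^ (6 / 10 : ℝ) := lt_of_lt_of_le h6 h5
        exact (Real.rpow_lt_rpow_iff (by linarith) hXj0.le (by norm_num)).1 h7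
      have hXj1 : 1 < Xj := by linarith
      have hlogXj : 0 < Real.log Xj := Real.log_pos hXj1
      have hone := hX1 Xj (hBX1.trans hXjB.le) (Zh.filter (fun ρ => lev ρ = j)) (by
        intro ρ hρ
        obtain ⟨h1, h2, h3, h4, -⟩ := hfacts ρ hρ
        exact ⟨h1, h2, h3, h4⟩)
      have hterm : ∀ ρ ∈ Zh.filter (fun ρ => lev ρ = j), mz ρ * X ^ (ρ.re - 1) ≤
          (mz ρ * Xj ^ (ρ.re - 1)) * (1 / 2 : ℝ) ^ j := by
        intro ρ hρ
        obtain ⟨h1, h2, h3, h4, h5⟩ := hfacts ρ hρ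
        have hT : T0 ≤ |ρ.im| := by
          have h6 : T0 ≤ Xj ^ (3 / 10 : ℝ) := by
            have h7 : (T0 ^ (10 / 3 : ℝ)) ^ (3 / 10 : ℝ) ≤ Xj ^ (3 / 10 : ℝ) :=
              Real.rpow_le_rpow (by positivity) (hBT0.trans hXjB.le) (by norm_num)
            rw [← Real.rpow_mul (by linarith)] at h7
            norm_num at h7
            exact h7
          exact h6.trans h3
        have hz := hzf ρ h1 hT
        have him1 : 1 < |ρ.im| := by linarith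
        have hlogim : 0 < Real.log |ρ.im| := Real.log_pos him1
        have hlogle : Real.log |ρ.im| ≤ Real.log Xj := by
          refine Real.log_le_log (by linarith) (h4.trans ?_)
          have h8 := Real.rpow_le_rpow_of_exponent_le hXj1.le (by norm_num : (6 / 10 : ℝ) ≤ 1)
          rwa [Real.rpow_one] at h8
        have hx : 1 / Real.log Xj ≤ 1 - ρ.re := by
          have h9 : 1 / Real.log Xj ≤ 1 / Real.log |ρ.im| := one_div_le_one_div_of_le hlogim hlogle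
          linarith
        have hx' : 1 ≤ (1 - ρ.re) * Real.log Xj := by
          rwa [div_le_iff₀ hlogXj] at hx
        -- X = Xj ^ (2 ^ j)
        have hXXj : X ^ (ρ.re - 1) = Xj ^ ((2 : ℝ) ^ j * (ρ.re - 1)) := by
          rw [hXj, ← Real.rpow_mul hX0.le, ← mul_assoc, ← mul_pow]
          norm_num
        rw [hXXj, mul_assoc]
        refine mul_le_mul_of_nonneg_left ?_ (mz_nonneg ρ)
        rw [show (2 : ℝ) ^ j * (ρ.re - 1) = (ρ.re - 1) + ((2 : ℝ) ^ j - 1) * (ρ.re - 1) by ring,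
          Real.rpow_add hXj0]
        refine mul_le_mul_of_nonneg_left ?_ (Real.rpow_nonneg hXj0.le _)
        rw [Real.rpow_def_of_pos hXj0]
        have h2j : (j : ℝ) ≤ (2 : ℝ) ^ j - 1 := by
          have h10 : (1 : ℝ) + j * 1 ≤ (1 + 1) ^ j := one_add_mul_le_pow (by norm_num) j
          norm_num at h10
          linarith
        have h11 : Real.log Xj * (((2 : ℝ) ^ j - 1) * (ρ.re - 1)) ≤ -(j : ℝ) := by
          have h12 : (j : ℝ) * 1 ≤ ((2 : ℝ) ^ j - 1) * ((1 - ρ.re) * Real.log Xj) :=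
            mul_le_mul h2j hx' (by norm_num) (by linarith [Nat.cast_nonneg (α := ℝ) j])
          linarith
        refine (Real.exp_le_exp.2 h11).trans ?_
        have h13 : Real.exp (-(j : ℝ)) = (Real.exp (-1)) ^ j := by
          rw [← Real.exp_nat_mul]
          congr 1
          ring
        rw [h13]
        refine pow_le_pow_left₀ (Real.exp_pos _).le ?_ j
        rw [Real.exp_neg, one_div]
        refine inv_anti₀ (by norm_num) ?_
        have := Real.add_one_le_exp (1 : ℝ)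
        linarith
      calc ∑ ρ ∈ Zh.filter (fun ρ => lev ρ = j), mz ρ * X ^ (ρ.re - 1)
          ≤ ∑ ρ ∈ Zh.filter (fun ρ => lev ρ = j), (mz ρ * Xj ^ (ρ.re - 1)) * (1 / 2 : ℝ) ^ j :=
            Finset.sum_le_sum hterm
        _ = (∑ ρ ∈ Zh.filter (fun ρ => lev ρ = j), mz ρ * Xj ^ (ρ.re - 1)) * (1 / 2 : ℝ) ^ j := by
            rw [Finset.sum_mul]
        _ ≤ η / 4 * (1 / 2 : ℝ) ^ j := mul_le_mul_of_nonneg_right hone (by positivity)
    calc ∑ j ∈ Zh.image lev, ∑ ρ ∈ Zh.filter (fun ρ => lev ρ = j), mz ρ * X ^ (ρ.re - 1)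
        ≤ ∑ j ∈ Zh.image lev, η / 4 * (1 / 2 : ℝ) ^ j := Finset.sum_le_sum hfib
      _ = η / 4 * ∑ j ∈ Zh.image lev, (1 / 2 : ℝ) ^ j := by rw [Finset.mul_sum]
      _ ≤ η / 4 * 2 := by
          refine mul_le_mul_of_nonneg_left ?_ (by linarith)
          exact (summable_geometric_two.sum_le_tsum _ (fun j _ => by positivity)).trans
            tsum_geometric_two.le
      _ = η / 2 := by ring
  linarith

end Pool.Agent.Helper71.KSZ
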